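import Pool.Agent.H217.CF.Spec

/-!
Project CF of helper217: `S_deg` (exponential moment of the degrees) and `S_event` (union bound).
-/

set_option autoImplicit false

namespace Pool.Agent.H52.CF

open Finset Pool.Agent.H217.CF

theorem sum_pi {ι α : Type} [Fintype ι] [DecidableEq ι] [Fintype α] (F : α → ℝ) :
    ∑ g : ι → α, ∏ x, F (g x) = (∑ u, F u) ^ Fintype.card ι := by
  have h := Finset.prod_univ_sum (fun _ : ι => (univ : Finset α)) (fun _ u => F u)
  rw [Fintype.piFinset_univ] at h
  rw [← h, prod_const, card_univ]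

theorem sum_exp (q s N M : ℕ) (lam : ℝ) (v : Fin N) :
    ∑ e : Fin M → X q s → Fin N, Real.exp (lam * dg e v) =
      ((N : ℝ) - 1 + Real.exp lam) ^ (q * s * M) := by
  have h1 : ∀ e : Fin M → X q s → Fin N, Real.exp (lam * dg e v) =
      ∏ j, ∏ x, Real.exp (if e j x = v then lam else 0) := by
    intro e
    simp_rw [← Real.exp_sum]
    unfold dg
    rw [Nat.cast_sum, mul_sum]
    have : ∀ j, lam * ((univ.filter (fun x => e j x = v)).card : ℝ) =
        ∑ x, if e j x = v then lam else 0 := by
      intro j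
      rw [← sum_filter, sum_const, nsmul_eq_mul, mul_comm]
    simp_rw [this]
  simp_rw [h1]
  have h2 := sum_pi (ι := Fin M) (fun g : X q s → Fin N =>
    ∏ x, Real.exp (if g x = v then lam else 0))
  have h3 := sum_pi (ι := X q s) (fun u : Fin N => Real.exp (if u = v then lam else 0))
  have h4 : ∑ u : Fin N, Real.exp (if u = v then lam else 0) = (N : ℝ) - 1 + Real.exp lam := by
    rw [← add_sum_erase _ _ (mem_univ v), if_pos rfl]
    have h5 : ∑ u ∈ univ.erase v, Real.exp (if u = v then lam else 0) = (N : ℝ) - 1 := by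
      rw [sum_congr rfl (g := fun _ => (1 : ℝ)) (fun u hu => by
        rw [if_neg (ne_of_mem_erase hu), Real.exp_zero])]
      rw [sum_const, card_erase_of_mem (mem_univ v), card_univ, Fintype.card_fin, nsmul_eq_mul,
        mul_one, Nat.cast_sub (Nat.one_le_iff_ne_zero.2 (by have := v.pos; omega)), Nat.cast_one]
    rw [h5]
    ring
  rw [h2, h3, h4, Fintype.card_fin, Fintype.card_prod, Fintype.card_fin, Fintype.card_fin,
    ← pow_mul]

theorem s_deg : S_deg := by
  intro q s N M D hN lam hlam
  have hN0 : (0 : ℝ) < N := Nat.cast_pos.2 hN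
  have h1 : ∀ e : Fin M → X q s → Fin N, ((univ.filter (fun v => D < dg e v)).card : ℝ) ≤
      Real.exp (-(lam * D)) * ∑ v : Fin N, Real.exp (lam * dg e v) := by
    intro e
    rw [card_filter, Nat.cast_sum, mul_sum]
    refine sum_le_sum fun v _ => ?_
    split_ifs with h
    · rw [Nat.cast_one, ← Real.exp_add]
      apply Real.one_le_exp
      have h2 : (D : ℝ) ≤ dg e v := by exact_mod_cast h.le
      nlinarith
    · rw [Nat.cast_zero]
      positivity
  calc ∑ e : Fin M → X q s → Fin N, ((univ.filter (fun v => D < dg e v)).card : ℝ)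
      ≤ ∑ e : Fin M → X q s → Fin N, Real.exp (-(lam * D)) *
          ∑ v : Fin N, Real.exp (lam * dg e v) := sum_le_sum fun e _ => h1 e
    _ = Real.exp (-(lam * D)) * ∑ v : Fin N, ∑ e : Fin M → X q s → Fin N,
          Real.exp (lam * dg e v) := by rw [← mul_sum, sum_comm]
    _ = Real.exp (-(lam * D)) * (N * ((N : ℝ) - 1 + Real.exp lam) ^ (q * s * M)) := by
        simp_rw [sum_exp]
        rw [sum_const, card_univ, Fintype.card_fin, nsmul_eq_mul]
    _ ≤ Real.exp (-(lam * D)) * (N * (Real.exp ((Real.exp lam - 1) * (M * (q * s) / N)) *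
          (N : ℝ) ^ (q * s * M))) := by
        have h2 : (N : ℝ) - 1 + Real.exp lam ≤ Real.exp ((Real.exp lam - 1) / N) * N := by
          have h3 := Real.add_one_le_exp ((Real.exp lam - 1) / N)
          calc (N : ℝ) - 1 + Real.exp lam = ((Real.exp lam - 1) / N + 1) * N := by
                field_simp
                ring
            _ ≤ _ := by gcongr
        have h4 : 0 ≤ (N : ℝ) - 1 + Real.exp lam := by
          have := Real.one_le_exp hlam
          linarith
        have h5 : ((N : ℝ) - 1 + Real.exp lam) ^ (q * s * M) ≤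
            Real.exp ((Real.exp lam - 1) * (M * (q * s) / N)) * (N : ℝ) ^ (q * s * M) := by
          calc ((N : ℝ) - 1 + Real.exp lam) ^ (q * s * M)
              ≤ (Real.exp ((Real.exp lam - 1) / N) * N) ^ (q * s * M) := by gcongr
            _ = Real.exp ((Real.exp lam - 1) / N) ^ (q * s * M) * (N : ℝ) ^ (q * s * M) :=
                mul_pow _ _ _
            _ = _ := by
                rw [← Real.exp_nat_mul]
                congr 2
                push_cast
                ring
        gcongr
    _ = _ := by ring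

theorem card_small (M C : ℕ) :
    (univ.filter (fun R : Finset (Fin M) => R.card ≤ C)).card ≤ (M + 1) ^ C := by
  classical
  have h1 : univ.filter (fun R : Finset (Fin M) => R.card ≤ C) ⊆
      (range (C + 1)).biUnion (fun i => powersetCard i (univ : Finset (Fin M))) := by
    intro R hR
    rw [mem_filter] at hR
    rw [mem_biUnion]
    exact ⟨R.card, mem_range.2 (Nat.lt_succ_of_le hR.2), mem_powersetCard.2 ⟨subset_univ _, rfl⟩⟩
  calc (univ.filter (fun R : Finset (Fin M) => R.card ≤ C)).card
      ≤ ((range (C + 1)).biUnion (fun i => powersetCard i (univ : Finset (Fin M)))).card :=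
        card_le_card h1
    _ ≤ ∑ i ∈ range (C + 1), (powersetCard i (univ : Finset (Fin M))).card := card_biUnion_le
    _ ≤ ∑ i ∈ range (C + 1), M ^ i * 1 ^ (C - i) * C.choose i := by
        refine sum_le_sum fun i hi => ?_
        rw [card_powersetCard, card_univ, Fintype.card_fin, one_pow, mul_one]
        have h2 : 1 ≤ C.choose i := Nat.choose_pos (Nat.le_of_lt_succ (mem_range.1 hi))
        calc M.choose i ≤ M ^ i := Nat.choose_le_pow M i
          _ = M ^ i * 1 := (mul_one _).symm
          _ ≤ M ^ i * C.choose i := Nat.mul_le_mul_left _ h2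
    _ = (M + 1) ^ C := (add_pow M 1 C).symm

open Classical in
theorem card_one (k q s N M C : ℕ) (ω : ℝ) (h0 : 0 ≤ ω) (h1 : ω ≤ 1)
    (φ : Fin N → Option (Fin k))
    (hφ : ((univ.filter (fun g : X q s → Fin N => Proper (fun x => φ (g x)))).card : ℝ) ≤
        ω * (N : ℝ) ^ (q * s)) (R : Finset (Fin M)) (hR : R.card ≤ C) :
    ((univ.filter (fun e : Fin M → X q s → Fin N =>
      ∀ j, j ∉ R → Proper (fun x => φ (e j x)))).card : ℝ) ≤
      ω ^ (M - C) * (N : ℝ) ^ (q * s * M) := by
  set P : Finset (X q s → Fin N) := univ.filter (fun g : X q s → Fin N =>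
    Proper (fun x => φ (g x))) with hP
  have e1 : univ.filter (fun e : Fin M → X q s → Fin N =>
      ∀ j, j ∉ R → Proper (fun x => φ (e j x))) =
      Fintype.piFinset (fun j => if j ∈ R then univ else P) := by
    ext e
    rw [mem_filter, Fintype.mem_piFinset]
    constructor
    · rintro ⟨-, h⟩ j
      split_ifs with hj
      · exact mem_univ _
      · rw [hP, mem_filter]
        exact ⟨mem_univ _, h j hj⟩
    · intro h
      refine ⟨mem_univ _, fun j hj => ?_⟩
      have h2 := h j
      rw [if_neg hj, hP, mem_filter] at h2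
      exact h2.2
  rw [e1, Fintype.card_piFinset, Nat.cast_prod]
  have e2 : ∀ j : Fin M, (((if j ∈ R then univ else P : Finset (X q s → Fin N)).card : ℕ) : ℝ) ≤
      (if j ∈ R then 1 else ω) * (N : ℝ) ^ (q * s) := by
    intro j
    split_ifs with hj
    · rw [card_univ, Fintype.card_fun, Fintype.card_fin, Fintype.card_prod, Fintype.card_fin,
        Fintype.card_fin, one_mul, Nat.cast_pow]
    · exact hφ
  calc ∏ j : Fin M, (((if j ∈ R then univ else P : Finset (X q s → Fin N)).card : ℕ) : ℝ)
      ≤ ∏ j : Fin M, ((if j ∈ R then 1 else ω) * (N : ℝ) ^ (q * s)) :=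
        prod_le_prod (fun j _ => Nat.cast_nonneg _) fun j _ => e2 j
    _ = (∏ j : Fin M, (if j ∈ R then 1 else ω)) * (N : ℝ) ^ (q * s * M) := by
        rw [prod_mul_distrib, prod_const, card_univ, Fintype.card_fin, ← pow_mul]
    _ ≤ ω ^ (M - C) * (N : ℝ) ^ (q * s * M) := by
        apply mul_le_mul_of_nonneg_right _ (by positivity)
        have e3 : ∏ j : Fin M, (if j ∈ R then 1 else ω) = ω ^ (M - R.card) := by
          rw [prod_ite, prod_const_one, one_mul, prod_const]
          congr 1
          have e4 : univ.filter (fun j : Fin M => j ∉ R) = univ \ R := by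
            ext j
            simp
          rw [e4, card_sdiff_of_subset (subset_univ R), card_univ, Fintype.card_fin]
        rw [e3]
        exact pow_le_pow_of_le_one h0 h1 (by omega)

open Classical in
theorem s_event : S_event := by
  intro k q s N M C η ω h0 h1 hφ
  set Φ : Finset (Fin N → Option (Fin k)) := univ.filter (fun φ =>
    ((univ.filter (fun v => φ v = none)).card : ℝ) ≤ η * N) with hΦ
  set Rs : Finset (Finset (Fin M)) := univ.filter (fun R => R.card ≤ C) with hRs
  have e1 : univ.filter (fun e : Fin M → X q s → Fin N => ∃ φ : Fin N → Option (Fin k),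
      ((univ.filter (fun v => φ v = none)).card : ℝ) ≤ η * N ∧
      ∃ R : Finset (Fin M), R.card ≤ C ∧ ∀ j, j ∉ R → Proper (fun x => φ (e j x))) ⊆
      (Φ ×ˢ Rs).biUnion (fun p => univ.filter (fun e : Fin M → X q s → Fin N =>
        ∀ j, j ∉ p.2 → Proper (fun x => p.1 (e j x)))) := by
    intro e he
    rw [mem_filter] at he
    obtain ⟨-, φ, h2, R, h3, h4⟩ := he
    rw [mem_biUnion]
    refine ⟨(φ, R), ?_, ?_⟩
    · rw [mem_product, hΦ, hRs, mem_filter, mem_filter]
      exact ⟨⟨mem_univ _, h2⟩, mem_univ _, h3⟩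
    · rw [mem_filter]
      exact ⟨mem_univ _, h4⟩
  have e2 : ((univ.filter (fun e : Fin M → X q s → Fin N => ∃ φ : Fin N → Option (Fin k),
      ((univ.filter (fun v => φ v = none)).card : ℝ) ≤ η * N ∧
      ∃ R : Finset (Fin M), R.card ≤ C ∧ ∀ j, j ∉ R → Proper (fun x => φ (e j x)))).card : ℝ) ≤
      ∑ p ∈ Φ ×ˢ Rs, ((univ.filter (fun e : Fin M → X q s → Fin N =>
        ∀ j, j ∉ p.2 → Proper (fun x => p.1 (e j x)))).card : ℝ) := by
    have e3 := (card_le_card e1).trans card_biUnion_le
    have e4 : ((univ.filter (fun e : Fin M → X q s → Fin N => ∃ φ : Fin N → Option (Fin k),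
      ((univ.filter (fun v => φ v = none)).card : ℝ) ≤ η * N ∧
      ∃ R : Finset (Fin M), R.card ≤ C ∧ ∀ j, j ∉ R → Proper (fun x => φ (e j x)))).card : ℝ) ≤
      ((∑ p ∈ Φ ×ˢ Rs, (univ.filter (fun e : Fin M → X q s → Fin N =>
        ∀ j, j ∉ p.2 → Proper (fun x => p.1 (e j x)))).card : ℕ) : ℝ) := by
      exact_mod_cast e3
    rwa [Nat.cast_sum] at e4
  refine e2.trans ?_
  have e5 : ∀ p ∈ Φ ×ˢ Rs, ((univ.filter (fun e : Fin M → X q s → Fin N =>
        ∀ j, j ∉ p.2 → Proper (fun x => p.1 (e j x)))).card : ℝ) ≤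
      ω ^ (M - C) * (N : ℝ) ^ (q * s * M) := by
    rintro ⟨φ, R⟩ hp
    rw [mem_product, hΦ, hRs, mem_filter, mem_filter] at hp
    exact card_one k q s N M C ω h0 h1 φ (hφ φ hp.1.2) R hp.2.2
  refine (sum_le_sum e5).trans ?_
  rw [sum_const, nsmul_eq_mul, card_product, Nat.cast_mul]
  have e6 : ((Φ.card : ℕ) : ℝ) ≤ ((k : ℝ) + 1) ^ N := by
    have : Φ.card ≤ (k + 1) ^ N := by
      refine (card_le_univ _).trans (le_of_eq ?_)
      rw [Fintype.card_fun, Fintype.card_option, Fintype.card_fin, Fintype.card_fin]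
    exact_mod_cast this
  have e7 : ((Rs.card : ℕ) : ℝ) ≤ ((M : ℝ) + 1) ^ C := by
    have := card_small M C
    exact_mod_cast this
  have e8 : 0 ≤ ω ^ (M - C) * (N : ℝ) ^ (q * s * M) := by positivity
  calc (Φ.card : ℝ) * (Rs.card : ℝ) * (ω ^ (M - C) * (N : ℝ) ^ (q * s * M))
      ≤ ((k : ℝ) + 1) ^ N * ((M : ℝ) + 1) ^ C * (ω ^ (M - C) * (N : ℝ) ^ (q * s * M)) := by
        gcongr
    _ = _ := by ring

end Pool.Agent.H52.CF
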